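import Mathlib

/-!
# MP_7a8221_co: rectangles tiled by L-tetrominoes of one orientation

The `8 × 5` rectangle is tiled by ten L-tetrominoes of one orientation, although `5` is odd. With
`2 × 8` blocks this gives every `m × n` rectangle with `8 ∣ m` and `n ≥ 5`.
-/

set_option autoImplicit false

namespace Pool.Agent.Results.MP_7a8221_co.EightByFive

/-- The quarter turn about the origin. -/
def rot (p : ℤ × ℤ) : ℤ × ℤ := (-p.2, p.1)

/-- The L-tetromino: a row of three cells with one extra cell above one end cell. A cell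
`[i, i + 1] × [j, j + 1]` is given by its corner `(i, j)`. -/
def L : Finset (ℤ × ℤ) := {(0, 0), (1, 0), (2, 0), (2, 1)}

/-- The mirror image of the L-tetromino. -/
def L' : Finset (ℤ × ℤ) := {(0, 0), (1, 0), (2, 0), (0, 1)}

/-- `Q` is the image of `P` under a rotation (by a multiple of a quarter turn) composed
with a translation. -/
def SameOrientation (P Q : Finset (ℤ × ℤ)) : Prop :=
  ∃ (k : ℕ) (v : ℤ × ℤ), Q = P.image fun p => rot^[k] p + v

/-- The cells of the `m × n` rectangle. -/
def rect (m n : ℕ) : Finset (ℤ × ℤ) :=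
  (Finset.range m ×ˢ Finset.range n).image fun p => ((p.1 : ℤ), (p.2 : ℤ))

/-- The `m × n` rectangle has a tiling by L-tetrominoes all of the same orientation. -/
def Tiled (m n : ℕ) : Prop :=
  ∃ (P : Finset (ℤ × ℤ)) (T : Finset (Finset (ℤ × ℤ))), (P = L ∨ P = L') ∧
    (∀ t ∈ T, SameOrientation P t) ∧ (∀ s ∈ T, ∀ t ∈ T, s ≠ t → Disjoint s t) ∧
    T.biUnion id = rect m n

/-- The list of rotations and translations of the tiles. -/
def tiles85 : List (ℕ × (ℤ × ℤ)) :=
  [(0, (0, 0)), (3, (0, 3)), (1, (1, 2)), (1, (3, 0)), (2, (4, 4)), (0, (3, 3)), (2, (6, 1)),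
    (0, (4, 2)), (0, (5, 0)), (1, (7, 2))]

def tile (d : ℕ × (ℤ × ℤ)) : Finset (ℤ × ℤ) := L.image fun p => rot^[d.1] p + d.2

theorem tiled85 : Tiled 8 5 := by
  refine ⟨L, (tiles85.map tile).toFinset, Or.inl rfl, ?_, ?_, ?_⟩
  · intro t ht
    rw [List.mem_toFinset, List.mem_map] at ht
    obtain ⟨d, -, rfl⟩ := ht
    exact ⟨d.1, d.2, rfl⟩
  · decide +kernel
  · decide +kernel

/-- It is not true that an `m × n` rectangle has a tiling by L-tetrominoes all of the same
orientation exactly when one of `m`, `n` is divisible by `4` and the other is even: the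
`8 × 5` rectangle has such a tiling. -/
theorem result :
    Tiled 8 5 ∧
    ¬ ∀ m n : ℕ, 1 ≤ m → 1 ≤ n → (Tiled m n ↔ (4 ∣ m ∧ 2 ∣ n) ∨ (4 ∣ n ∧ 2 ∣ m)) := by
  refine ⟨tiled85, fun h => ?_⟩
  have := (h 8 5 (by norm_num) (by norm_num)).1 tiled85
  omega

end Pool.Agent.Results.MP_7a8221_co.EightByFive
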